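import Pool.Agent.H79.HD.NTW4

/-!
# Task HD-NTW: the pieces of zeta are not small, short windows (helper79)
-/

set_option autoImplicit false

namespace Pool.Agent.H79.HD

open Complex MeasureTheory Set Filter Topology
open scoped ComplexConjugate
open Pool.Agent.H477.E (MT bc Nn)
open Pool.Agent.H466.HD

theorem decay {η ρ K1 Λ2 κ : ℝ} (hη : 0 < η) (hρ : 0 < ρ) (hK : 0 ≤ K1) (hΛ : 0 ≤ Λ2)
    (hκ : 0 < κ) : ∃ A1 : ℝ, ∀ A : ℝ, A1 ≤ A → 1 ≤ A →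
      A * Real.exp (-(η * A)) *
        ((K1 * Real.exp (η / 2 * A) * (1 + 2 * (1 + ρ) * A) ^ 4 + Λ2) / 2) ≤ κ := by
  set K2 : ℝ := (K1 * (3 + 2 * ρ) ^ 4 + Λ2) / 2 with hK2
  have hK20 : 0 ≤ K2 := by positivity
  have h1 := Real.tendsto_pow_mul_exp_neg_atTop_nhds_zero 5
  have h2 : Tendsto (fun A : ℝ => η / 2 * A) atTop atTop :=
    tendsto_id.const_mul_atTop (by positivity)
  have h3 : Tendsto (fun A : ℝ => K2 / (η / 2) ^ 5 * ((η / 2 * A) ^ 5 * Real.exp (-(η / 2 * A))))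
      atTop (𝓝 (K2 / (η / 2) ^ 5 * 0)) := (h1.comp h2).const_mul _
  rw [mul_zero] at h3
  obtain ⟨A1, hA1⟩ := eventually_atTop.1 (h3.eventually (ge_mem_nhds hκ))
  refine ⟨A1, fun A hA hA' => ?_⟩
  refine le_trans ?_ (hA1 A hA)
  have hA0 : 0 < A := by linarith
  have e1 : K2 / (η / 2) ^ 5 * ((η / 2 * A) ^ 5 * Real.exp (-(η / 2 * A))) =
      K2 * A ^ 5 * Real.exp (-(η / 2 * A)) := by
    rw [mul_pow]
    field_simp
  rw [e1]
  have e2 : Real.exp (-(η * A)) * Real.exp (η / 2 * A) = Real.exp (-(η / 2 * A)) := by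
    rw [← Real.exp_add]
    congr 1
    ring
  have e3 : Real.exp (-(η * A)) ≤ Real.exp (-(η / 2 * A)) := by
    refine Real.exp_le_exp.2 ?_
    nlinarith
  have e4 : (1 + 2 * (1 + ρ) * A) ^ 4 ≤ ((3 + 2 * ρ) * A) ^ 4 := by
    refine pow_le_pow_left₀ (by positivity) ?_ 4
    nlinarith
  have e5 : (1 : ℝ) ≤ A ^ 4 := one_le_pow₀ hA'
  have hE := Real.exp_pos (-(η / 2 * A))
  calc A * Real.exp (-(η * A)) *
        ((K1 * Real.exp (η / 2 * A) * (1 + 2 * (1 + ρ) * A) ^ 4 + Λ2) / 2)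
      = A / 2 * (K1 * (Real.exp (-(η * A)) * Real.exp (η / 2 * A)) *
          (1 + 2 * (1 + ρ) * A) ^ 4 + Λ2 * Real.exp (-(η * A))) := by ring
    _ ≤ A / 2 * (K1 * Real.exp (-(η / 2 * A)) * ((3 + 2 * ρ) * A) ^ 4 +
          Λ2 * (A ^ 4 * Real.exp (-(η / 2 * A)))) := by
        rw [e2]
        refine mul_le_mul_of_nonneg_left (add_le_add ?_ ?_) (by positivity)
        · exact mul_le_mul_of_nonneg_left e4 (by positivity)
        · refine mul_le_mul_of_nonneg_left (e3.trans ?_) hΛ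
          exact le_mul_of_one_le_left hE.le e5
    _ = K2 * A ^ 5 * Real.exp (-(η / 2 * A)) := by
        rw [hK2]
        ring

theorem five {E1 E2 E3 E4 E5 S : Set ℝ} {x : ℝ} (hx : 0 ≤ x)
    (h1 : volume E1 ≤ ENNReal.ofReal (x / 8)) (h2 : volume E2 ≤ ENNReal.ofReal (x / 8))
    (h3 : volume E3 ≤ ENNReal.ofReal (x / 8)) (h4 : volume E4 ≤ ENNReal.ofReal (x / 8))
    (h5 : volume E5 ≤ ENNReal.ofReal (x / 8)) (hS : S ⊆ E1 ∪ (E2 ∪ (E3 ∪ (E4 ∪ E5)))) :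
    volume S ≤ ENNReal.ofReal x := by
  have hx8 : 0 ≤ x / 8 := by positivity
  calc volume S ≤ volume (E1 ∪ (E2 ∪ (E3 ∪ (E4 ∪ E5)))) := measure_mono hS
    _ ≤ volume E1 + (volume E2 + (volume E3 + (volume E4 + volume E5))) := by
        refine (measure_union_le _ _).trans (add_le_add le_rfl ?_)
        refine (measure_union_le _ _).trans (add_le_add le_rfl ?_)
        refine (measure_union_le _ _).trans (add_le_add le_rfl ?_)
        exact measure_union_le _ _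
    _ ≤ ENNReal.ofReal (x / 8) + (ENNReal.ofReal (x / 8) + (ENNReal.ofReal (x / 8) +
        (ENNReal.ofReal (x / 8) + ENNReal.ofReal (x / 8)))) := by gcongr
    _ = ENNReal.ofReal (x / 8 + (x / 8 + (x / 8 + (x / 8 + x / 8)))) := by
        rw [ENNReal.ofReal_add hx8 (by positivity), ENNReal.ofReal_add hx8 (by positivity),
          ENNReal.ofReal_add hx8 (by positivity), ENNReal.ofReal_add hx8 hx8]
    _ ≤ ENNReal.ofReal x := ENNReal.ofReal_le_ofReal (by linarith)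

theorem log_le_two_sqrt {T : ℝ} (hT : 0 < T) : Real.log T ≤ 2 * Real.sqrt T := by
  have h1 : Real.log T = 2 * Real.log (Real.sqrt T) := by
    rw [Real.log_sqrt hT.le]
    ring
  have h2 := Real.log_le_sub_one_of_pos (Real.sqrt_pos.2 hT)
  rw [h1]
  linarith

theorem zeta_line_cont {a : ℝ} (ha : a ≤ 1 / 4) :
    Continuous fun t : ℝ => riemannZeta (1 / 2 + (a : ℂ) + (t : ℂ) * I) := by
  rw [continuous_iff_continuousAt]
  intro t
  have h1 : (1 / 2 + (a : ℂ) + (t : ℂ) * I) ≠ 1 := by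
    intro h
    have h2 := congrArg Complex.re h
    have h3 : (1 / 2 + (a : ℂ) + (t : ℂ) * I).re = 1 / 2 + a := by simp
    rw [h3, Complex.one_re] at h2
    linarith
  exact ContinuousAt.comp (f := fun t : ℝ => (1 / 2 + (a : ℂ) + (t : ℂ) * I))
    (differentiableAt_riemannZeta h1).continuousAt (by fun_prop)

theorem ntw (h1 : S_BUMP) (h2 : S_LLN) (h3 : S_NA) (h4 : S_GT) (h5 : S_NC) (h6 : S_PR) :
    S_NTW := by
  intro ρ ε η ε0 hρ hε hε' hη hε0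
  obtain ⟨β, k, Cb, hb⟩ := h1
  obtain ⟨θL, hθL, hL⟩ := h2 β k Cb hb (ε / 4) (by positivity)
  obtain ⟨θN, hθN, hN⟩ := h3 β k Cb hb (ε / 4) (by positivity)
  obtain ⟨T4, hT4, hGT⟩ := h4
  obtain ⟨θC, hθC, hC⟩ := h5
  obtain ⟨c1, U, hc1, hU, hPR⟩ := h6.2 ε hε
  obtain ⟨θ, hθ0, hθ1, hθ2, hθ3, hθ4, hθ5⟩ : ∃ θ : ℝ, 0 < θ ∧ θ ≤ θL ∧ θ ≤ θN ∧ θ ≤ θC ∧
      8 * θ ≤ η / 2 ∧ θ ≤ 1 / 2 := by
    refine ⟨min (min θL θN) (min θC (min (η / 16) (1 / 2))), ?_, ?_, ?_, ?_, ?_, ?_⟩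
    · refine lt_min (lt_min hθL hθN) (lt_min hθC (lt_min (by positivity) (by norm_num)))
    · exact (min_le_left _ _).trans (min_le_left _ _)
    · exact (min_le_left _ _).trans (min_le_right _ _)
    · exact (min_le_right _ _).trans (min_le_left _ _)
    · have : min (min θL θN) (min θC (min (η / 16) (1 / 2))) ≤ η / 16 :=
        (min_le_right _ _).trans ((min_le_right _ _).trans (min_le_left _ _))
      linarith
    · exact (min_le_right _ _).trans ((min_le_right _ _).trans (min_le_right _ _))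
  obtain ⟨CL, TL, hCL, hTL, hLLN⟩ := hL θ hθ0 hθ1
  obtain ⟨CN, TN, hCN, hTN, hNA⟩ := hN θ hθ0 hθ2
  obtain ⟨CC, TC, hCC, hTC, hNC⟩ := hC θ hθ0 hθ3
  -- the constants
  obtain ⟨κ1, hκ1, hκ10⟩ : ∃ κ1 : ℝ, κ1 = ε0 * c1 / (256 * CN) ∧ 0 < κ1 :=
    ⟨_, rfl, by positivity⟩
  obtain ⟨K0, hK0, hK1⟩ : ∃ K0 : ℝ, 1 ≤ K0 ∧ Real.exp (-(K0 ^ 2 / 4)) ≤ κ1 := by
    refine ⟨max 1 (4 / κ1), le_max_left _ _, ?_⟩
    set K := max 1 (4 / κ1) with hK
    have g1 : 1 ≤ K := le_max_left _ _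
    have g2 : 4 / κ1 ≤ K := le_max_right _ _
    have g3 : 1 / κ1 ≤ K ^ 2 / 4 := by
      have : 4 / κ1 = 4 * (1 / κ1) := by ring
      nlinarith
    have g4 : Real.exp (-(K ^ 2 / 4)) ≤ Real.exp (-(1 / κ1)) := Real.exp_le_exp.2 (by linarith)
    refine g4.trans ?_
    rw [Real.exp_neg]
    have g5 : 1 / κ1 ≤ Real.exp (1 / κ1) := by
      have := Real.add_one_le_exp (1 / κ1)
      linarith
    calc (Real.exp (1 / κ1))⁻¹ ≤ (1 / κ1)⁻¹ := inv_anti₀ (by positivity) g5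
      _ = κ1 := by rw [one_div, inv_inv]
  have hK00 : 0 < K0 := by linarith
  obtain ⟨Λ2, hΛ2, hΛ20⟩ : ∃ Λ2 : ℝ, Λ2 = 8 * (2 * CN + 1) / ε0 ∧ 0 < Λ2 :=
    ⟨_, rfl, by positivity⟩
  obtain ⟨A1, hA1⟩ := decay (K1 := 8 / ε0 * CC) (κ := c1 / 8) hη hρ (by positivity) hΛ20.le
    (by positivity)
  obtain ⟨A0, a1, a2, a3, a4, a5, a6⟩ : ∃ A0 : ℝ, 1 ≤ A0 ∧ A1 ≤ A0 ∧ 4 ≤ A0 ∧
      2 * K0 / ρ ≤ A0 ∧ 256 * CL * K0 / (c1 ^ 2 * ε0 * ρ) ≤ A0 ∧ 512 * CN / (c1 * ε0) ≤ A0 := by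
    have hev : ∀ᶠ A0 : ℝ in atTop, 1 ≤ A0 ∧ A1 ≤ A0 ∧ 4 ≤ A0 ∧
      2 * K0 / ρ ≤ A0 ∧ 256 * CL * K0 / (c1 ^ 2 * ε0 * ρ) ≤ A0 ∧ 512 * CN / (c1 * ε0) ≤ A0 := by
      filter_upwards [eventually_ge_atTop 1, eventually_ge_atTop A1, eventually_ge_atTop 4,
        eventually_ge_atTop (2 * K0 / ρ),
        eventually_ge_atTop (256 * CL * K0 / (c1 ^ 2 * ε0 * ρ)),
        eventually_ge_atTop (512 * CN / (c1 * ε0))] with A g1 g2 g3 g4 g5 g6
      exact ⟨g1, g2, g3, g4, g5, g6⟩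
    exact hev.exists
  obtain ⟨X0, x1, x2⟩ : ∃ X0 : ℝ, 1 ≤ X0 ∧ 128 / (ε0 * c1) ≤ X0 :=
    ⟨max 1 (128 / (ε0 * c1)), le_max_left _ _, le_max_right _ _⟩
  have hevT : ∀ᶠ T : ℝ in atTop, 10 ≤ T ∧ TL ≤ T ∧ TN ≤ T ∧ T4 ≤ T ∧ TC ≤ T ∧ 1 + 2 * CN ≤ T ∧
      4 * X0 ^ 2 ≤ T ∧ 3 * U + 1 ≤ Real.log T ∧ 4 ≤ Real.log T ∧ 1 / ε ≤ Real.log T := by
    filter_upwards [eventually_ge_atTop 10, eventually_ge_atTop TL, eventually_ge_atTop TN,
      eventually_ge_atTop T4, eventually_ge_atTop TC, eventually_ge_atTop (1 + 2 * CN),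
      eventually_ge_atTop (4 * X0 ^ 2),
      Real.tendsto_log_atTop.eventually_ge_atTop (3 * U + 1),
      Real.tendsto_log_atTop.eventually_ge_atTop 4,
      Real.tendsto_log_atTop.eventually_ge_atTop (1 / ε)] with T g1 g2 g3 g4 g5 g6 g7 g8 g9 g10
    exact ⟨g1, g2, g3, g4, g5, g6, g7, g8, g9, g10⟩
  obtain ⟨T0, hT0⟩ := eventually_atTop.1 hevT
  refine ⟨A0, min (1 / 4) (1 / ρ), max T0 10, a1, lt_min (by norm_num) (by positivity),
    le_max_right _ _, ?_⟩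
  intro T ℓ μ hT hℓ hμ hA hδ
  obtain ⟨t1, t2, t3, t4, t5, t6, t7, t8, t9, t10⟩ := hT0 T ((le_max_left _ _).trans hT)
  -- `L` and `ℓ`
  obtain ⟨L, hLdef⟩ : ∃ L : ℝ, L = Real.log T := ⟨_, rfl⟩
  rw [← hLdef] at hℓ t8 t9 t10
  rw [abs_le] at hℓ
  have hL0 : 0 < L := by linarith
  have hT1 : 0 < T := by linarith
  have hℓ3 : 3 ≤ ℓ := by linarith only [hℓ.1, t9]
  have hℓ0 : 0 < ℓ := by linarith only [hℓ3]
  have hLℓ : L ≤ 2 * ℓ := by linarith only [hℓ.1, hℓ3]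
  have hεL : 1 ≤ ε * L := by
    rw [div_le_iff₀ hε] at t10
    linarith only [t10]
  have hδ1 : μ * ℓ ≤ 1 / 4 := hδ.trans (min_le_left _ _)
  have hδ2 : ρ * (μ * ℓ) ≤ 1 := by
    have := hδ.trans (min_le_right _ _)
    rw [le_div_iff₀ hρ] at this
    linarith only [this]
  have ha0 : 0 < μ * ℓ := by positivity
  have hR0 : 0 < ρ * (μ * ℓ) := by positivity
  have hAeq : μ * ℓ ^ 2 = (μ * ℓ) * ℓ := by ring
  have hA1' : 1 ≤ μ * ℓ ^ 2 := a1.trans hA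
  have hμL : A0 / 4 ≤ μ * L ^ 2 := by
    have g1 : (ℓ / 2) ^ 2 ≤ L ^ 2 :=
      pow_le_pow_left₀ (by positivity) (by linarith only [hℓ.2, t9]) 2
    have g2 : μ * (ℓ / 2) ^ 2 ≤ μ * L ^ 2 := mul_le_mul_of_nonneg_left g1 hμ.le
    have g3 : μ * (ℓ / 2) ^ 2 = μ * ℓ ^ 2 / 4 := by ring
    linarith only [g2, g3, hA]
  have hμ1 : μ ≤ 1 := by nlinarith only [hμ, hℓ3, hδ1]
  -- the window
  obtain ⟨w0, hw0def⟩ : ∃ w0 : ℝ, w0 = ρ * (μ * ℓ) / K0 := ⟨_, rfl⟩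
  have hw00 : 0 < w0 := by rw [hw0def]; positivity
  have hw01 : w0 ≤ 1 := by
    rw [hw0def, div_le_one hK00]
    linarith only [hδ2, hK0]
  have hw0L : ρ * A0 / (2 * K0) ≤ w0 * L := by
    have g1 : ρ * (μ * ℓ ^ 2) / (2 * K0) ≤ w0 * L := by
      rw [hw0def]
      have g2 : ρ * (μ * ℓ) * (ℓ / 2) ≤ ρ * (μ * ℓ) * L :=
        mul_le_mul_of_nonneg_left (by linarith only [hℓ.2, t9]) hR0.le
      calc ρ * (μ * ℓ ^ 2) / (2 * K0) = (ρ * (μ * ℓ) * (ℓ / 2)) / K0 := by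
            field_simp
        _ ≤ (ρ * (μ * ℓ) * L) / K0 := div_le_div_of_nonneg_right g2 hK00.le
        _ = _ := by ring
    refine le_trans ?_ g1
    refine div_le_div_of_nonneg_right ?_ (by positivity)
    exact mul_le_mul_of_nonneg_left hA hρ.le
  have hw0L1 : 1 ≤ w0 * L := by
    refine le_trans ?_ hw0L
    rw [le_div_iff₀ (by positivity)]
    rw [div_le_iff₀ hρ] at a4
    linarith only [a4]
  have hw0L2 : 128 * CL / (c1 ^ 2 * ε0) ≤ w0 * L := by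
    refine le_trans ?_ hw0L
    rw [le_div_iff₀ (by positivity)]
    rw [div_le_iff₀ (by positivity)] at a5
    rw [div_mul_eq_mul_div, div_le_iff₀ (by positivity)]
    linarith only [a5]
  -- the band
  obtain ⟨c, hc⟩ : ∃ c : ℝ, c = (1 / 2 - 3 * ε / 2) * ℓ := ⟨_, rfl⟩
  obtain ⟨w, hw⟩ : ∃ w : ℝ, w = ε * ℓ / 2 := ⟨_, rfl⟩
  have hw0' : 0 < w := by rw [hw]; positivity
  have hcw1 : c - w = (1 / 2 - 2 * ε) * ℓ := by rw [hc, hw]; ring
  have hcw2 : c + w = (1 / 2 - ε) * ℓ := by rw [hc, hw]; ring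
  have hBd : Bd (ε / 4) (Real.log T) c w := by
    rw [← hLdef]
    refine ⟨by positivity, ?_, ?_, ?_⟩
    · rw [hw]
      nlinarith only [hε, hLℓ]
    · rw [hcw1]
      nlinarith only [hℓ.1, hε', hε, t9, hℓ3]
    · rw [hcw2]
      nlinarith only [hℓ.2, hε', hε, hεL]
  have hm : c1 ≤ m0 β c w := by
    rw [hc, hw]
    exact m0_ge hb hε hε' hU hPR (by linarith only [hℓ.1, t8])
  -- the quotient
  obtain ⟨Q, hQ⟩ : ∃ Q : ℝ, Q = T / Real.log T := ⟨_, rfl⟩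
  have hQX : X0 ≤ Q := by
    rw [hQ, ← hLdef, le_div_iff₀ hL0]
    have g1 : L ≤ 2 * Real.sqrt T := by rw [hLdef]; exact log_le_two_sqrt hT1
    have g2 : 2 * X0 ≤ Real.sqrt T := by
      refine Real.le_sqrt_of_sq_le ?_
      nlinarith only [t7]
    have g3 : Real.sqrt T * Real.sqrt T = T := Real.mul_self_sqrt hT1.le
    nlinarith only [Real.sqrt_nonneg T, g1, g2, g3, x1]
  have hQ1 : 1 ≤ Q := x1.trans hQX
  have hQ2 : 128 ≤ Q * (ε0 * c1) := by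
    have := x2.trans hQX
    rwa [div_le_iff₀ (by positivity)] at this
  have hQ0 : 0 < Q := by linarith only [hQ1]
  -- the hypotheses at this place
  obtain ⟨n1, n2, n3, n4, n5⟩ := hNA T c w μ t3 hBd hμ (by
    rw [← hLdef]
    linarith only [hμL, a3]) hμ1
  have hl := hLLN T c w w0 t2 hBd hw00 hw01 (by rw [← hLdef]; exact hw0L1)
  have hnc := hNC T (μ * ℓ) (ρ * (μ * ℓ)) w0 t5 ha0.le (by linarith only [hδ1]) hR0.le hδ2 hw00
  rw [← hQ] at n3 n4 n5 hl hnc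
  rw [← hLdef] at n3 n4 n5 hl hnc
  -- crude bounds
  have hexpT : Real.exp L = T := by rw [hLdef, Real.exp_log hT1]
  have hcwT : Real.exp (c + w) ≤ T := by
    rw [← hexpT]
    refine Real.exp_le_exp.2 ?_
    rw [hcw2]
    nlinarith only [hℓ.2, hε, hℓ0, t9]
  have hDT : ∀ y, ‖Dn β c w y‖ ≤ T := fun y => (Dn_le hb c w y).trans hcwT
  have hPT : ∀ y, ‖Pn β c w y‖ ≤ T := fun y => (Pn_le hb c w y).trans hcwT
  have hMT : ∀ y, ‖Mt θ T y‖ ≤ T := by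
    intro y
    refine (Mt_le hθ0 (by linarith only [t1]) y).trans ?_
    rw [← hLdef]
    calc Real.exp (2 * θ * L) ≤ Real.exp L :=
          Real.exp_le_exp.2 (by nlinarith only [hθ5, hL0])
      _ = T := hexpT
  have hyT : ∀ y : ℝ, 2 + |y| ≤ 2 * T * (1 + |y - T|) := by
    intro y
    have g1 : |y| ≤ |y - T| + |T| := by
      have := abs_add_le (y - T) T
      rwa [sub_add_cancel] at this
    rw [abs_of_pos hT1] at g1
    nlinarith only [abs_nonneg (y - T), g1, t1]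
  have hGT' : ∀ y, ‖DG k c w μ y‖ ≤ CN * (2 * T * (1 + |y - T|)) := fun y =>
    (n2 y).trans (mul_le_mul_of_nonneg_left (hyT y) hCN.le)
  have hD : Bc (Dn β c w) := ⟨Dn_cont β c w, _, Dn_le hb c w⟩
  have hP : Bc (Pn β c w) := ⟨Pn_cont β c w, _, Pn_le hb c w⟩
  have hM : Bc (Mt θ T) := ⟨Mt_cont θ T, _, Mt_le hθ0 (by linarith only [t1])⟩
  have hG : Gr (DG k c w μ) := by
    refine ⟨n1, CN * 2, fun y => (n2 y).trans ?_⟩
    rw [mul_assoc]
    refine mul_le_mul_of_nonneg_left ?_ hCN.le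
    linarith only [Real.add_one_le_exp |y|, abs_nonneg y]
  have hbase : ∀ y : ℝ, (1 : ℝ) ≤ 1 + |y - T| := fun y => by linarith only [abs_nonneg (y - T)]
  have hgrow2 : ∀ y, ‖(Dn β c w y - DG k c w μ y) * Mt θ T y * Pn β c w y‖ ≤
      T ^ 4 * (1 + |y - T|) := by
    intro y
    rw [norm_mul, norm_mul]
    have g1 : ‖Dn β c w y - DG k c w μ y‖ ≤ T * T * (1 + |y - T|) := by
      refine (norm_sub_le _ _).trans ((add_le_add (hDT y) (hGT' y)).trans ?_)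
      have g2 : T ≤ T * (1 + |y - T|) := le_mul_of_one_le_right hT1.le (hbase y)
      have g3 : (1 + 2 * CN) * (T * (1 + |y - T|)) ≤ T * (T * (1 + |y - T|)) :=
        mul_le_mul_of_nonneg_right t6 (by positivity)
      linarith only [g2, g3]
    calc ‖Dn β c w y - DG k c w μ y‖ * ‖Mt θ T y‖ * ‖Pn β c w y‖
        ≤ (T * T * (1 + |y - T|)) * T * T := by
          gcongr
          · exact hMT y
          · exact hPT y
      _ = T ^ 4 * (1 + |y - T|) := by ring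
  have hgrow3 : ∀ y, ‖DG k c w μ y * Mt θ T y * Pn β c w y‖ ≤ T ^ 4 * (1 + |y - T|) := by
    intro y
    rw [norm_mul, norm_mul]
    have g1 : ‖DG k c w μ y‖ ≤ T * T * (1 + |y - T|) := by
      refine (hGT' y).trans ?_
      have g3 : (1 + 2 * CN) * (T * (1 + |y - T|)) ≤ T * (T * (1 + |y - T|)) :=
        mul_le_mul_of_nonneg_right t6 (by positivity)
      have g4 : 0 ≤ T * (1 + |y - T|) := by positivity
      linarith only [g3, g4]
    calc ‖DG k c w μ y‖ * ‖Mt θ T y‖ * ‖Pn β c w y‖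
        ≤ (T * T * (1 + |y - T|)) * T * T := by
          gcongr
          · exact hMT y
          · exact hPT y
      _ = T ^ 4 * (1 + |y - T|) := by ring
  have hgrow4 : ∀ y, ‖Pn β c w y‖ ^ 2 ≤ T ^ 4 * (1 + |y - T|) := by
    intro y
    have g1 : ‖Pn β c w y‖ ^ 2 ≤ T ^ 2 := pow_le_pow_left₀ (norm_nonneg _) (hPT y) 2
    have g2 : T ^ 2 ≤ T ^ 4 := pow_le_pow_right₀ (by linarith only [t1]) (by norm_num)
    exact (g1.trans g2).trans (le_mul_of_one_le_right (by positivity) (hbase y))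
  -- the last threshold
  obtain ⟨Λ1, hΛ1, hΛ10⟩ : ∃ Λ1 : ℝ, Λ1 = 8 / ε0 * CC * Real.exp (4 * θ * (μ * ℓ) * L) *
      (1 + (μ * ℓ + ρ * (μ * ℓ)) * L) ^ 4 ∧ 0 < Λ1 := ⟨_, rfl, by positivity⟩
  -- the exceptional sets
  have hle4 : T - T / (4 * Real.log T) ≤ T + T / (4 * Real.log T) := by
    have : 0 ≤ T / (4 * Real.log T) := by rw [← hLdef]; positivity
    linarith only [this]
  have hle8 : T - T / (8 * Real.log T) ≤ T + T / (8 * Real.log T) := by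
    have : 0 ≤ T / (8 * Real.log T) := by rw [← hLdef]; positivity
    linarith only [this]
  have hle48 : T / (8 * Real.log T) ≤ T / (4 * Real.log T) := by
    rw [← hLdef]
    exact div_le_div_of_nonneg_left hT1.le (by positivity) (by linarith only [hL0])
  rw [← hLdef] at hle4 hle8 hle48 ⊢
  have gTp : Gr (Tp θ T β c w) := by
    unfold Tp
    exact (hD.gr.mul hM).mul hP.conj
  have v1 : volume {t : ℝ | t ∈ Icc (T - T / (4 * L)) (T + T / (4 * L)) ∧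
      (c1 / 4) ^ 2 ≤ ‖Gav w0 (Tp θ T β c w) t - (m0 β c w : ℂ)‖ ^ 2} ≤
      ENNReal.ofReal (ε0 * Q / 8) := by
    refine (markov hle4 (((Gav_cont hw00 gTp).sub continuous_const).norm.pow 2)
      (fun t => sq_nonneg _) (by positivity) hl).trans (ENNReal.ofReal_le_ofReal ?_)
    rw [div_le_iff₀ (by positivity)]
    have g1 : CL / (w0 * L) ≤ ε0 * c1 ^ 2 / 128 := by
      rw [div_le_iff₀ (by positivity)]
      rw [div_le_iff₀ (by positivity)] at hw0L2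
      linarith only [hw0L2]
    have g2 := mul_le_mul_of_nonneg_right g1 hQ0.le
    linarith only [g2]
  have v2 : volume {t : ℝ | t ∈ Icc (T - T / (8 * L)) (T + T / (8 * L)) ∧
      c1 / 4 ≤ Xav w0 0
        (fun y => ‖(Dn β c w y - DG k c w μ y) * Mt θ T y * Pn β c w y‖) t} ≤
      ENNReal.ofReal (ε0 * Q / 8) := by
    have g0 := gt_meas hGT t4 t1 hw00 hw01 le_rfl
      (((hD.gr.sub hG).mul hM).mul hP).norm (fun y => norm_nonneg _) hgrow2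
      (J := CN / (μ * L ^ 2) * Q) (by rw [← hLdef]; exact n3) (lam := c1 / 4) (by positivity)
    rw [← hLdef] at g0
    refine g0.trans (ENNReal.ofReal_le_ofReal ?_)
    rw [div_le_iff₀ (by positivity)]
    have g1 : CN / (μ * L ^ 2) ≤ ε0 * c1 / 128 := by
      rw [div_le_iff₀ (by positivity)]
      rw [div_le_iff₀ (by positivity)] at a6
      have g3 : ε0 * c1 / 128 * (A0 / 4) ≤ ε0 * c1 / 128 * (μ * L ^ 2) :=
        mul_le_mul_of_nonneg_left hμL (by positivity)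
      linarith only [g3, a6]
    have g2 := mul_le_mul_of_nonneg_right g1 hQ0.le
    have g4 : Real.exp (-((0 : ℝ) ^ 2 / (4 * w0 ^ 2))) = 1 := by simp
    rw [g4]
    linarith only [g2, hQ2]
  have v3 : volume {t : ℝ | t ∈ Icc (T - T / (8 * L)) (T + T / (8 * L)) ∧
      c1 / 8 ≤ Xav w0 (ρ * (μ * ℓ)) (fun y => ‖DG k c w μ y * Mt θ T y * Pn β c w y‖) t} ≤
      ENNReal.ofReal (ε0 * Q / 8) := by
    have g0 := gt_meas hGT t4 t1 hw00 hw01 hR0.le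
      ((hG.mul hM).mul hP).norm (fun y => norm_nonneg _) hgrow3
      (J := CN * Q) (by rw [← hLdef]; exact n4) (lam := c1 / 8) (by positivity)
    rw [← hLdef] at g0
    refine g0.trans (ENNReal.ofReal_le_ofReal ?_)
    rw [div_le_iff₀ (by positivity)]
    have g1 : (ρ * (μ * ℓ)) ^ 2 / (4 * w0 ^ 2) = K0 ^ 2 / 4 := by
      rw [hw0def]
      field_simp
    rw [g1]
    have g2 : Real.exp (-(K0 ^ 2 / 4)) * (CN * Q) ≤ κ1 * (CN * Q) :=
      mul_le_mul_of_nonneg_right hK1 (by positivity)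
    have g3 : κ1 * (CN * Q) = ε0 * c1 * Q / 256 := by
      rw [hκ1]
      field_simp
    linarith only [g2, g3, hQ2]
  have v4 : volume {t : ℝ | t ∈ Icc (T - T / (8 * L)) (T + T / (8 * L)) ∧
      Λ2 ≤ Xav w0 0 (fun y => ‖Pn β c w y‖ ^ 2) t} ≤ ENNReal.ofReal (ε0 * Q / 8) := by
    have g0 := gt_meas hGT t4 t1 hw00 hw01 le_rfl hP.sq (fun y => sq_nonneg _) hgrow4
      (J := CN * Q) (by rw [← hLdef]; exact n5) (lam := Λ2) hΛ20
    rw [← hLdef] at g0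
    refine g0.trans (ENNReal.ofReal_le_ofReal ?_)
    rw [div_le_iff₀ hΛ20, hΛ2]
    have g4 : Real.exp (-((0 : ℝ) ^ 2 / (4 * w0 ^ 2))) = 1 := by simp
    rw [g4]
    have g5 : ε0 * Q / 8 * (8 * (2 * CN + 1) / ε0) = (2 * CN + 1) * Q := by
      field_simp
    rw [g5]
    linarith only [hQ1]
  have v5 : volume {t : ℝ | t ∈ Icc (T - T / (8 * L)) (T + T / (8 * L)) ∧
      Λ1 ≤ ‖riemannZeta (1 / 2 + (μ * ℓ : ℝ) + (t : ℂ) * I)‖ ^ 2 *
        (1 / (w0 * Real.sqrt (2 * Real.pi)) *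
          ∫ y in Icc (t - ρ * (μ * ℓ)) (t + ρ * (μ * ℓ)),
            ‖Mt θ T y‖ ^ 2 * Real.exp (-(y - t) ^ 2 / (2 * w0 ^ 2)))} ≤
      ENNReal.ofReal (ε0 * Q / 8) := by
    refine (markov hle8 (((zeta_line_cont hδ1).norm.pow 2).mul
      (continuous_const.mul (Zav_cont hw00 (ρ * (μ * ℓ)) hM.sq)))
      (fun t => ?_) hΛ10 hnc).trans (ENNReal.ofReal_le_ofReal ?_)
    · refine mul_nonneg (sq_nonneg _) (mul_nonneg (by positivity) (integral_nonneg fun y => ?_))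
      positivity
    · rw [div_le_iff₀ hΛ10, hΛ1]
      refine le_of_eq ?_
      field_simp
  refine five (x := ε0 * (T / L)) (by positivity)
    (E1 := {t : ℝ | t ∈ Icc (T - T / (4 * L)) (T + T / (4 * L)) ∧
      (c1 / 4) ^ 2 ≤ ‖Gav w0 (Tp θ T β c w) t - (m0 β c w : ℂ)‖ ^ 2})
    (E2 := {t : ℝ | t ∈ Icc (T - T / (8 * L)) (T + T / (8 * L)) ∧
      c1 / 4 ≤ Xav w0 0
        (fun y => ‖(Dn β c w y - DG k c w μ y) * Mt θ T y * Pn β c w y‖) t})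
    (E3 := {t : ℝ | t ∈ Icc (T - T / (8 * L)) (T + T / (8 * L)) ∧
      c1 / 8 ≤ Xav w0 (ρ * (μ * ℓ)) (fun y => ‖DG k c w μ y * Mt θ T y * Pn β c w y‖) t})
    (E4 := {t : ℝ | t ∈ Icc (T - T / (8 * L)) (T + T / (8 * L)) ∧
      Λ2 ≤ Xav w0 0 (fun y => ‖Pn β c w y‖ ^ 2) t})
    (E5 := {t : ℝ | t ∈ Icc (T - T / (8 * L)) (T + T / (8 * L)) ∧
      Λ1 ≤ ‖riemannZeta (1 / 2 + (μ * ℓ : ℝ) + (t : ℂ) * I)‖ ^ 2 *
        (1 / (w0 * Real.sqrt (2 * Real.pi)) *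
          ∫ y in Icc (t - ρ * (μ * ℓ)) (t + ρ * (μ * ℓ)),
            ‖Mt θ T y‖ ^ 2 * Real.exp (-(y - t) ^ 2 / (2 * w0 ^ 2)))})
    ?_ ?_ ?_ ?_ ?_ ?_
  · rw [hLdef, ← hQ, ← hLdef]; exact v1
  · rw [hLdef, ← hQ, ← hLdef]; exact v2
  · rw [hLdef, ← hQ, ← hLdef]; exact v3
  · rw [hLdef, ← hQ, ← hLdef]; exact v4
  · rw [hLdef, ← hQ, ← hLdef]; exact v5
  · rintro t ⟨ht, htbad⟩
    by_contra hcon
    rw [mem_union, mem_union, mem_union, mem_union, not_or, not_or, not_or, not_or] at hcon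
    obtain ⟨m1, m2, m3, m4, m5⟩ := hcon
    have ht4 : t ∈ Icc (T - T / (4 * L)) (T + T / (4 * L)) := by
      rw [mem_Icc] at ht ⊢
      constructor <;> linarith only [ht.1, ht.2, hle48]
    have k1 := not_le.1 fun h => m1 ⟨ht4, h⟩
    have k2 := not_le.1 fun h => m2 ⟨ht, h⟩
    have k3 := not_le.1 fun h => m3 ⟨ht, h⟩
    have k4 := not_le.1 fun h => m4 ⟨ht, h⟩
    have k5 := not_le.1 fun h => m5 ⟨ht, h⟩
    refine pointwise (B := Real.sqrt μ * Real.exp (-(η * (μ * ℓ ^ 2)))) hb hθ0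
      (by linarith only [t1])
      hμ hw0'.le hw00 hG hc1 hm k1 k2 k3 k4 k5 (by positivity) ?_ ?_
    · intro y u hy hu1 hu2
      rw [hcw1] at hu1
      rw [hcw2] at hu2
      exact (htbad y u hy hu1 hu2).le
    · -- the final comparison
      have hA' := hA1 (μ * ℓ ^ 2) (a2.trans hA) hA1'
      refine le_trans ?_ hA'
      have s1 : w / Real.pi * Real.sqrt μ ≤ μ * ℓ ^ 2 := by
        have p1 : w / Real.pi ≤ ℓ := by
          rw [div_le_iff₀ Real.pi_pos, hw]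
          have := Real.pi_gt_three
          nlinarith only [this, hε', hℓ0, hε]
        have p2 : ℓ * Real.sqrt μ = Real.sqrt (μ * ℓ ^ 2) := by
          rw [Real.sqrt_mul hμ.le, Real.sqrt_sq hℓ0.le, mul_comm]
        have p3 : Real.sqrt (μ * ℓ ^ 2) ≤ μ * ℓ ^ 2 := by
          rw [Real.sqrt_le_left (by linarith only [hA1'])]
          nlinarith only [hA1']
        calc w / Real.pi * Real.sqrt μ ≤ ℓ * Real.sqrt μ :=
              mul_le_mul_of_nonneg_right p1 (Real.sqrt_nonneg _)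
          _ = Real.sqrt (μ * ℓ ^ 2) := p2
          _ ≤ _ := p3
      have s2 : Λ1 ≤ 8 / ε0 * CC * Real.exp (η / 2 * (μ * ℓ ^ 2)) *
          (1 + 2 * (1 + ρ) * (μ * ℓ ^ 2)) ^ 4 := by
        rw [hΛ1]
        have p1 : μ * ℓ * L ≤ 2 * (μ * ℓ ^ 2) := by
          have := mul_le_mul_of_nonneg_left hLℓ ha0.le
          linarith only [this]
        have p2 : 4 * θ * (μ * ℓ) * L ≤ η / 2 * (μ * ℓ ^ 2) := by
          have p3 := mul_le_mul_of_nonneg_left p1 (by positivity : 0 ≤ 4 * θ)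
          have p4 := mul_le_mul_of_nonneg_right hθ4 (by positivity : 0 ≤ μ * ℓ ^ 2)
          linarith only [p3, p4]
        have p5 : 1 + (μ * ℓ + ρ * (μ * ℓ)) * L ≤ 1 + 2 * (1 + ρ) * (μ * ℓ ^ 2) := by
          have p6 := mul_le_mul_of_nonneg_left p1 (by positivity : 0 ≤ 1 + ρ)
          linarith only [p6]
        have p7 : (0 : ℝ) ≤ 1 + (μ * ℓ + ρ * (μ * ℓ)) * L := by positivity
        gcongr
      have s3 : 0 ≤ w / Real.pi * Real.sqrt μ := by positivity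
      calc w / Real.pi * (Real.sqrt μ * Real.exp (-(η * (μ * ℓ ^ 2)))) * ((Λ1 + Λ2) / 2)
          = (w / Real.pi * Real.sqrt μ) * Real.exp (-(η * (μ * ℓ ^ 2))) * ((Λ1 + Λ2) / 2) := by
            ring
        _ ≤ (μ * ℓ ^ 2) * Real.exp (-(η * (μ * ℓ ^ 2))) *
            ((8 / ε0 * CC * Real.exp (η / 2 * (μ * ℓ ^ 2)) *
              (1 + 2 * (1 + ρ) * (μ * ℓ ^ 2)) ^ 4 + Λ2) / 2) := by
            gcongr

end Pool.Agent.H79.HD
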