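import Pool.Agent.H466.HD.SA
import Pool.Graph.R_seed8.H448R2.GC.X2

/-!
# Task HD-NTW, tools (helper79)
-/

set_option autoImplicit false

namespace Pool.Agent.H79.HD

open Complex MeasureTheory Set Filter Topology
open scoped ComplexConjugate
open Pool.Agent.H477.E (MT bc Nn)
open Pool.Agent.H466.HD

/-! ## Gaussian integrals -/

theorem abs_le_sq {a : ℝ} (ha : 0 < a) (v : ℝ) : |v| ≤ a / 2 * v ^ 2 + 1 / (2 * a) := by
  have h1 : 0 ≤ (a * |v| - 1) ^ 2 := sq_nonneg _
  have h2 : (a * |v| - 1) ^ 2 = a ^ 2 * v ^ 2 - 2 * a * |v| + 1 := by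
    rw [sub_sq, mul_pow, sq_abs]; ring
  rw [h2] at h1
  have h3 : a / 2 * v ^ 2 + 1 / (2 * a) - |v| = (a ^ 2 * v ^ 2 - 2 * a * |v| + 1) / (2 * a) := by
    field_simp
    ring
  have h4 : 0 ≤ (a ^ 2 * v ^ 2 - 2 * a * |v| + 1) / (2 * a) := by positivity
  linarith

theorem int_gauss {a : ℝ} (ha : 0 < a) :
    Integrable (fun v : ℝ => Real.exp |v| * Real.exp (-(a * v ^ 2))) := by
  have h1 : Integrable (fun v : ℝ => Real.exp (1 / (2 * a)) * Real.exp (-(a / 2) * v ^ 2)) :=
    (integrable_exp_neg_mul_sq (by positivity)).const_mul _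
  refine h1.mono' (by fun_prop) (Eventually.of_forall fun v => ?_)
  rw [Real.norm_eq_abs, abs_of_pos (by positivity), ← Real.exp_add, ← Real.exp_add]
  refine Real.exp_le_exp.2 ?_
  have := abs_le_sq ha v
  nlinarith

/-- the integral of a translate over a translated set -/
theorem shift_eq {F : Type*} [NormedAddCommGroup F] [NormedSpace ℝ F] (E : Set ℝ)
    (hE : MeasurableSet E) (f : ℝ → F) (g : ℝ → ℝ) (t : ℝ) :
    ∫ y in {y : ℝ | y - t ∈ E}, g (y - t) • f y = ∫ v in E, g v • f (t + v) := by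
  have hE' : MeasurableSet {y : ℝ | y - t ∈ E} := (measurable_id.sub_const t) hE
  rw [← integral_indicator hE', ← integral_indicator hE]
  rw [← integral_sub_right_eq_self (fun v => E.indicator (fun v => g v • f (t + v)) v) t]
  refine integral_congr_ae (Eventually.of_forall fun y => ?_)
  by_cases h : y - t ∈ E
  · change indicator {y : ℝ | y - t ∈ E} _ y = indicator E _ (y - t)
    rw [indicator_of_mem (show y ∈ {y : ℝ | y - t ∈ E} from h), indicator_of_mem h,
      add_sub_cancel]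
  · change indicator {y : ℝ | y - t ∈ E} _ y = indicator E _ (y - t)
    rw [indicator_of_notMem (show y ∉ {y : ℝ | y - t ∈ E} from h), indicator_of_notMem h]

/-- continuity of a Gaussian average -/
theorem cont_avg {F : Type*} [NormedAddCommGroup F] [NormedSpace ℝ F] (E : Set ℝ)
    (hE : MeasurableSet E) {f : ℝ → F} (hf : Continuous f) {B : ℝ}
    (hB : ∀ y, ‖f y‖ ≤ B * Real.exp |y|) {a : ℝ} (ha : 0 < a) :
    Continuous (fun t : ℝ =>
      ∫ y in {y : ℝ | y - t ∈ E}, Real.exp (-(a * (y - t) ^ 2)) • f y) := by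
  have h1 : (fun t : ℝ => ∫ y in {y : ℝ | y - t ∈ E}, Real.exp (-(a * (y - t) ^ 2)) • f y) =
      fun t : ℝ => ∫ v in E, Real.exp (-(a * v ^ 2)) • f (t + v) := by
    funext t
    exact shift_eq E hE f (fun v => Real.exp (-(a * v ^ 2))) t
  rw [h1, continuous_iff_continuousAt]
  intro t0
  have hB0 : 0 ≤ B := by
    have := (norm_nonneg _).trans (hB 0)
    rw [abs_zero, Real.exp_zero, mul_one] at this
    exact this
  refine continuousAt_of_dominated
    (bound := fun v => (B * Real.exp (|t0| + 1)) * (Real.exp |v| * Real.exp (-(a * v ^ 2)))) ?_ ?_ ?_ ?_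
  · refine Eventually.of_forall fun t => ?_
    exact (Continuous.aestronglyMeasurable (by fun_prop))
  · filter_upwards [Metric.ball_mem_nhds t0 one_pos] with t ht
    refine Eventually.of_forall fun v => ?_
    rw [norm_smul, Real.norm_eq_abs, abs_of_pos (Real.exp_pos _)]
    have h2 : |t + v| ≤ |t0| + 1 + |v| := by
      rw [Metric.mem_ball, Real.dist_eq] at ht
      have h3 : |t| ≤ |t0| + |t - t0| := by
        have := abs_add_le t0 (t - t0)
        rwa [add_sub_cancel] at this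
      have h4 := abs_add_le t v
      linarith
    have h5 : ‖f (t + v)‖ ≤ B * (Real.exp (|t0| + 1) * Real.exp |v|) := by
      refine (hB _).trans (mul_le_mul_of_nonneg_left ?_ hB0)
      rw [← Real.exp_add]
      exact Real.exp_le_exp.2 h2
    calc Real.exp (-(a * v ^ 2)) * ‖f (t + v)‖
        ≤ Real.exp (-(a * v ^ 2)) * (B * (Real.exp (|t0| + 1) * Real.exp |v|)) := by gcongr
      _ = _ := by ring
  · exact ((int_gauss ha).const_mul _).integrableOn
  · refine Eventually.of_forall fun v => ?_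
    exact ContinuousAt.const_smul (hf.continuousAt.comp (by fun_prop)) _

/-- integrability of a function times a Gaussian -/
theorem int_avg {F : Type*} [NormedAddCommGroup F] [NormedSpace ℝ F] {f : ℝ → F}
    (hf : Continuous f) {B : ℝ} (hB : ∀ y, ‖f y‖ ≤ B * Real.exp |y|) {a : ℝ} (ha : 0 < a) (t : ℝ) :
    Integrable (fun y : ℝ => Real.exp (-(a * (y - t) ^ 2)) • f y) := by
  have h1 : Integrable (fun v : ℝ => Real.exp (-(a * v ^ 2)) • f (t + v)) := by
    refine ((int_gauss ha).const_mul (B * Real.exp |t|)).mono'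
      (Continuous.aestronglyMeasurable (by fun_prop)) (Eventually.of_forall fun v => ?_)
    rw [norm_smul, Real.norm_eq_abs, abs_of_pos (Real.exp_pos _)]
    have hB0 : 0 ≤ B := by
      have := (norm_nonneg _).trans (hB 0)
      rw [abs_zero, Real.exp_zero, mul_one] at this
      exact this
    have h5 : ‖f (t + v)‖ ≤ B * (Real.exp |t| * Real.exp |v|) := by
      refine (hB _).trans (mul_le_mul_of_nonneg_left ?_ hB0)
      rw [← Real.exp_add]
      exact Real.exp_le_exp.2 (abs_add_le _ _)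
    calc Real.exp (-(a * v ^ 2)) * ‖f (t + v)‖
        ≤ Real.exp (-(a * v ^ 2)) * (B * (Real.exp |t| * Real.exp |v|)) := by gcongr
      _ = _ := by ring
  have h2 := h1.comp_sub_right t
  refine h2.congr (Eventually.of_forall fun y => ?_)
  simp only [add_sub_cancel]

/-- Chebyshev's inequality on an interval -/
theorem markov {a b J lam : ℝ} (hab : a ≤ b) {f : ℝ → ℝ} (hf : Continuous f) (h0 : ∀ t, 0 ≤ f t)
    (hlam : 0 < lam) (hI : ∫ t in a..b, f t ≤ J) :
    volume {t : ℝ | t ∈ Icc a b ∧ lam ≤ f t} ≤ ENNReal.ofReal (J / lam) := by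
  rw [intervalIntegral.integral_of_le hab, ← integral_Icc_eq_integral_Ioc] at hI
  have hint : IntegrableOn f (Icc a b) := hf.continuousOn.integrableOn_Icc
  have h1 := mul_meas_ge_le_integral_of_nonneg (μ := volume.restrict (Icc a b))
    (Eventually.of_forall h0) hint lam
  have hm : MeasurableSet {t : ℝ | lam ≤ f t} := measurableSet_le measurable_const hf.measurable
  have h2 : volume {t : ℝ | t ∈ Icc a b ∧ lam ≤ f t} =
      (volume.restrict (Icc a b)) {t : ℝ | lam ≤ f t} := by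
    rw [Measure.restrict_apply hm]
    congr 1
    ext t
    exact and_comm
  rw [h2]
  have hfin : (volume.restrict (Icc a b)) {t : ℝ | lam ≤ f t} ≠ ⊤ := by
    refine ne_of_lt (lt_of_le_of_lt (measure_mono (subset_univ _)) ?_)
    rw [Measure.restrict_apply MeasurableSet.univ, univ_inter, Real.volume_Icc]
    exact ENNReal.ofReal_lt_top
  rw [← ENNReal.ofReal_toReal hfin]
  refine ENNReal.ofReal_le_ofReal ?_
  rw [le_div_iff₀ hlam, mul_comm]
  exact h1.trans hI

/-! ## Crude bounds -/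

theorem cpow_le_one {n : ℕ} (hn : 1 ≤ n) (y : ℝ) : ‖(n : ℂ) ^ (-(1 / 2 + (y : ℂ) * I))‖ ≤ 1 := by
  rw [Complex.norm_natCast_cpow_of_pos (by omega)]
  have h1 : (-(1 / 2 + (y : ℂ) * I)).re = -(1 / 2) := by simp
  rw [h1]
  exact Real.rpow_le_one_of_one_le_of_nonpos (by exact_mod_cast hn) (by norm_num)

theorem cpow_cont {n : ℕ} (hn : 1 ≤ n) : Continuous fun y : ℝ => (n : ℂ) ^ (-(1 / 2 + (y : ℂ) * I)) := by
  refine Continuous.const_cpow (by fun_prop) (Or.inl ?_)
  exact_mod_cast (by omega : n ≠ 0)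

theorem Dn_cont (β : ℝ → ℝ) (c w : ℝ) : Continuous (Dn β c w) := by
  unfold Dn
  refine continuous_finsetSum _ fun n hn => ?_
  exact continuous_const.mul (cpow_cont (Finset.mem_Icc.1 hn).1)

theorem Dn_le {β : ℝ → ℝ} {k : ℝ → ℂ} {C : ℝ} (hb : Bump β k C) (c w y : ℝ) :
    ‖Dn β c w y‖ ≤ Real.exp (c + w) := by
  unfold Dn
  refine (norm_sum_le _ _).trans ?_
  refine (Finset.sum_le_card_nsmul _ _ 1 fun n hn => ?_).trans ?_
  · rw [norm_mul, Complex.norm_real, Real.norm_eq_abs, abs_of_nonneg (hb.nonneg _)]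
    exact mul_le_one₀ (hb.le_one _) (norm_nonneg _) (cpow_le_one (Finset.mem_Icc.1 hn).1 y)
  · rw [nsmul_eq_mul, mul_one, Nat.card_Icc, Nat.add_sub_cancel]
    exact Nat.floor_le (Real.exp_pos _).le

theorem Pb_one {c w : ℝ} {p : ℕ} (hp : p ∈ Pb c w) : 1 ≤ p := by
  unfold Pb at hp
  exact (Finset.mem_Icc.1 (Finset.mem_filter.1 hp).1).1

theorem Pn_cont (β : ℝ → ℝ) (c w : ℝ) : Continuous (Pn β c w) := by
  unfold Pn
  refine continuous_finsetSum _ fun n hn => ?_
  exact continuous_const.mul (cpow_cont (Pb_one hn))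

theorem Pn_le {β : ℝ → ℝ} {k : ℝ → ℂ} {C : ℝ} (hb : Bump β k C) (c w y : ℝ) :
    ‖Pn β c w y‖ ≤ Real.exp (c + w) := by
  unfold Pn
  refine (norm_sum_le _ _).trans ?_
  refine (Finset.sum_le_card_nsmul _ _ 1 fun n hn => ?_).trans ?_
  · rw [norm_mul, Complex.norm_real, Real.norm_eq_abs, abs_of_nonneg (hb.nonneg _)]
    exact mul_le_one₀ (hb.le_one _) (norm_nonneg _) (cpow_le_one (Pb_one hn) y)
  · rw [nsmul_eq_mul, mul_one]
    refine le_trans ?_ (Nat.floor_le (Real.exp_pos (c + w)).le)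
    have h1 : (Pb c w).card ≤ (Finset.Icc 1 ⌊Real.exp (c + w)⌋₊).card :=
      Finset.card_le_card (Finset.filter_subset _ _)
    rw [Nat.card_Icc, Nat.add_sub_cancel] at h1
    exact_mod_cast h1

theorem Mt_cont (θ T : ℝ) : Continuous (Mt θ T) := by
  unfold Mt MT Pool.Agent.H448R2.GC.fs
  refine continuous_finsetSum _ fun n hn => ?_
  exact continuous_const.mul (cpow_cont (Finset.mem_Icc.1 hn).1)

theorem Mt_le {θ T : ℝ} (hθ : 0 < θ) (hT : 1 < T) (y : ℝ) :
    ‖Mt θ T y‖ ≤ Real.exp (2 * θ * Real.log T) := by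
  have hL : 0 < Real.log T := Real.log_pos hT
  unfold Mt MT Pool.Agent.H448R2.GC.fs
  refine (norm_sum_le _ _).trans ?_
  refine (Finset.sum_le_card_nsmul _ _ 1 fun n hn => ?_).trans ?_
  · rw [norm_mul, norm_mul]
    have h1 : ‖((ArithmeticFunction.moebius n : ℤ) : ℂ)‖ ≤ 1 := by
      rw [Complex.norm_intCast]
      exact_mod_cast ArithmeticFunction.abs_moebius_le_one
    have hc : 0 < θ * Real.log T / 5 := by positivity
    have h2 : ‖(Pool.Agent.H448R2.GC.cu 5 (θ * Real.log T / 5)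
        (Real.log n - θ * Real.log T) : ℂ)‖ ≤ 1 := by
      rw [Complex.norm_real, Real.norm_eq_abs,
        abs_of_nonneg (Pool.Agent.H448R2.GC.cu_nonneg _ _ _ hc)]
      exact Pool.Agent.H448R2.GC.cu_le_one _ _ _ hc
    exact mul_le_one₀ (mul_le_one₀ h1 (norm_nonneg _) h2) (norm_nonneg _)
      (cpow_le_one (Finset.mem_Icc.1 hn).1 y)
  · rw [nsmul_eq_mul, mul_one, Nat.card_Icc, Nat.add_sub_cancel]
    refine (Nat.floor_le (Real.exp_pos _).le).trans (le_of_eq ?_)
    congr 1
    push_cast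
    ring

theorem Zt_cont : Continuous Zt := by
  unfold Zt
  rw [continuous_iff_continuousAt]
  intro y
  have h1 : (1 / 2 + (y : ℂ) * I) ≠ 1 := by
    intro h
    have h2 := congrArg Complex.re h
    have h3 : (1 / 2 + (y : ℂ) * I).re = 1 / 2 := by simp
    rw [h3, Complex.one_re] at h2
    norm_num at h2
  exact ContinuousAt.comp (f := fun y : ℝ => (1 / 2 + (y : ℂ) * I))
    (differentiableAt_riemannZeta h1).continuousAt (by fun_prop)

theorem Zt_le : ∃ C : ℝ, 0 < C ∧ ∀ y : ℝ, ‖Zt y‖ ≤ C * Real.exp |y| := by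
  obtain ⟨C, hC, h⟩ := Pool.Agent.H448R2.GC.zeta_growth_mid
  refine ⟨C, hC, fun y => ?_⟩
  have h1 : (1 / 2 + (y : ℂ) * I).re = 1 / 2 := by simp
  have h2 : (1 / 2 + (y : ℂ) * I).im = y := by simp
  have h3 := h (1 / 2 + (y : ℂ) * I) (by rw [h1]; norm_num) (by rw [h1]; norm_num)
  rw [h2] at h3
  refine h3.trans (mul_le_mul_of_nonneg_left ?_ hC.le)
  rw [add_comm]
  exact Real.add_one_le_exp _

end Pool.Agent.H79.HD
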