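import Pool.Agent.H79.HD.NTW1

/-!
# Task HD-NTW: the piece of zeta with the Gaussian cut-off (helper79)
-/

set_option autoImplicit false

namespace Pool.Agent.H79.HD

open Complex MeasureTheory Set Filter Topology
open scoped ComplexConjugate
open Pool.Agent.H477.E (MT bc Nn)
open Pool.Agent.H466.HD

/-- zeta times a Gaussian is integrable -/
theorem Zt_int {μ : ℝ} (hμ : 0 < μ) (y : ℝ) :
    Integrable (fun v : ℝ => Zt (y + v) * (Real.exp (-v ^ 2 / (8 * μ)) : ℂ)) := by
  obtain ⟨C, hC, h⟩ := Zt_le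
  have h1 : Continuous fun v : ℝ => Zt (y + v) := Zt_cont.comp (continuous_const.add continuous_id)
  have h2 : ∀ v, ‖Zt (y + v)‖ ≤ (C * Real.exp |y|) * Real.exp |v| := by
    intro v
    refine (h _).trans ?_
    rw [mul_assoc, ← Real.exp_add]
    exact mul_le_mul_of_nonneg_left (Real.exp_le_exp.2 (abs_add_le _ _)) hC.le
  have h3 := int_avg h1 h2 (a := 1 / (8 * μ)) (by positivity) 0
  refine h3.congr (Eventually.of_forall fun v => ?_)
  simp only [sub_zero]
  rw [Complex.real_smul, mul_comm]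
  congr 3
  ring

theorem beta_int {β : ℝ → ℝ} {k : ℝ → ℂ} {C : ℝ} (hb : Bump β k C) : Integrable β := by
  refine hb.cont.integrable_of_hasCompactSupport ?_
  refine HasCompactSupport.intro (isCompact_Icc (a := -1) (b := 1)) fun x hx => ?_
  apply hb.supp
  rw [mem_Icc, not_and_or, not_le, not_le] at hx
  rcases hx with h | h
  · rw [abs_of_neg (by linarith)]; linarith
  · rw [abs_of_pos (by linarith)]; linarith

theorem beta_int_le {β : ℝ → ℝ} {k : ℝ → ℂ} {C : ℝ} (hb : Bump β k C) : ∫ x, β x ≤ 2 := by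
  have h1 : ∫ x, β x = ∫ x in Icc (-1 : ℝ) 1, β x := by
    rw [setIntegral_eq_integral_of_forall_compl_eq_zero]
    intro x hx
    apply hb.supp
    rw [mem_Icc, not_and_or, not_le, not_le] at hx
    rcases hx with h | h
    · rw [abs_of_neg (by linarith)]; linarith
    · rw [abs_of_pos (by linarith)]; linarith
  rw [h1]
  have h2 : ∫ x in Icc (-1 : ℝ) 1, β x ≤ ∫ x in Icc (-1 : ℝ) 1, (1 : ℝ) :=
    integral_mono (beta_int hb).integrableOn (by simp) hb.le_one
  refine h2.trans (le_of_eq ?_)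
  simp
  norm_num

/-- the representation of the piece by Gaussian averages of zeta -/
theorem DG_eq {β : ℝ → ℝ} {k : ℝ → ℂ} {C : ℝ} (hb : Bump β k C) {μ : ℝ} (hμ : 0 < μ)
    (c w y : ℝ) : DG k c w μ y =
      ((w / (2 * Real.pi) : ℝ) : ℂ) * ∫ x : ℝ, (β x : ℂ) * Wg μ (c + w * x) y := by
  have hint : Integrable (Function.uncurry fun (v x : ℝ) =>
      (Zt (y + v) * (Real.exp (-v ^ 2 / (8 * μ)) : ℂ)) * ((β x : ℂ) * cexp (I * (c + w * x) * v)))
      (volume.prod volume) := by
    have h1 : Integrable (fun z : ℝ × ℝ => (Zt (y + z.1) * (Real.exp (-z.1 ^ 2 / (8 * μ)) : ℂ)) *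
        (β z.2 : ℂ)) (volume.prod volume) :=
      (Zt_int hμ y).mul_prod (beta_int hb).ofReal
    refine h1.mono ?_ (Eventually.of_forall fun z => ?_)
    · refine Continuous.aestronglyMeasurable ?_
      have hz := Zt_cont
      have hβ := hb.cont
      unfold Function.uncurry
      fun_prop
    · obtain ⟨v, x⟩ := z
      change ‖(Zt (y + v) * (Real.exp (-v ^ 2 / (8 * μ)) : ℂ)) *
        ((β x : ℂ) * cexp (I * (c + w * x) * v))‖ ≤
        ‖(Zt (y + v) * (Real.exp (-v ^ 2 / (8 * μ)) : ℂ)) * (β x : ℂ)‖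
      rw [norm_mul, norm_mul (_ * _) (β x : ℂ), norm_mul (β x : ℂ)]
      have h2 : ‖cexp (I * (c + w * x) * v)‖ = 1 := by
        have : I * ((c : ℂ) + w * x) * v = (((c + w * x) * v : ℝ) : ℂ) * I := by
          push_cast; ring
        rw [this, Complex.norm_exp_ofReal_mul_I]
      rw [h2, mul_one]
  have hswap := integral_integral_swap hint
  have hL : ∫ v : ℝ, ∫ x : ℝ, (Zt (y + v) * (Real.exp (-v ^ 2 / (8 * μ)) : ℂ)) *
      ((β x : ℂ) * cexp (I * (c + w * x) * v)) =
      ∫ v : ℝ, (Zt (y + v) * (Real.exp (-v ^ 2 / (8 * μ)) : ℂ)) *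
        ∫ x : ℝ, (β x : ℂ) * cexp (I * (c + w * x) * v) :=
    integral_congr_ae (Eventually.of_forall fun v => integral_const_mul _ _)
  have hR : ∫ x : ℝ, ∫ v : ℝ, (Zt (y + v) * (Real.exp (-v ^ 2 / (8 * μ)) : ℂ)) *
      ((β x : ℂ) * cexp (I * (c + w * x) * v)) = ∫ x : ℝ, (β x : ℂ) * Wg μ (c + w * x) y := by
    refine integral_congr_ae (Eventually.of_forall fun x => ?_)
    simp only
    unfold Wg
    rw [← integral_const_mul]
    refine integral_congr_ae (Eventually.of_forall fun v => ?_)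
    simp only
    push_cast
    ring
  rw [hL, hR] at hswap
  rw [← hswap]
  unfold DG
  rw [← integral_const_mul]
  refine integral_congr_ae (Eventually.of_forall fun v => ?_)
  simp only
  unfold Kn
  rw [hb.kdef (w * v)]
  have h3 : ∫ x : ℝ, (β x : ℂ) * cexp (I * (c + w * x) * v) =
      cexp (I * c * v) * ∫ x : ℝ, (β x : ℂ) * cexp (I * x * ((w * v : ℝ) : ℂ)) := by
    rw [← integral_const_mul]
    refine integral_congr_ae (Eventually.of_forall fun x => ?_)
    simp only
    rw [mul_left_comm, ← Complex.exp_add]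
    congr 2
    push_cast
    ring
  rw [h3]
  push_cast
  ring

/-- the bound of the piece by the Gaussian averages of zeta -/
theorem DG_le {β : ℝ → ℝ} {k : ℝ → ℂ} {C : ℝ} (hb : Bump β k C) {μ : ℝ} (hμ : 0 < μ)
    {c w y B : ℝ} (hw : 0 ≤ w) (hB : ∀ u : ℝ, c - w ≤ u → u ≤ c + w → ‖Wg μ u y‖ ≤ B) :
    ‖DG k c w μ y‖ ≤ w / Real.pi * B := by
  have hB0 : 0 ≤ B := (norm_nonneg _).trans (hB c (by linarith) (by linarith))
  rw [DG_eq hb hμ, norm_mul, Complex.norm_real, Real.norm_eq_abs,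
    abs_of_nonneg (by positivity : 0 ≤ w / (2 * Real.pi))]
  have h1 : ‖∫ x : ℝ, (β x : ℂ) * Wg μ (c + w * x) y‖ ≤ ∫ x : ℝ, β x * B := by
    refine norm_integral_le_of_norm_le ((beta_int hb).mul_const B) (Eventually.of_forall fun x => ?_)
    rw [norm_mul, Complex.norm_real, Real.norm_eq_abs, abs_of_nonneg (hb.nonneg _)]
    rcases le_or_gt 1 |x| with h | h
    · rw [hb.supp x h, zero_mul, zero_mul]
    · rw [abs_lt] at h
      refine mul_le_mul_of_nonneg_left (hB _ ?_ ?_) (hb.nonneg _)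
      · nlinarith
      · nlinarith
  rw [integral_mul_const] at h1
  have h2 : (∫ x : ℝ, β x) * B ≤ 2 * B := mul_le_mul_of_nonneg_right (beta_int_le hb) hB0
  calc w / (2 * Real.pi) * ‖∫ x : ℝ, (β x : ℂ) * Wg μ (c + w * x) y‖
      ≤ w / (2 * Real.pi) * (2 * B) := by
        refine mul_le_mul_of_nonneg_left (h1.trans h2) (by positivity)
    _ = w / Real.pi * B := by
        field_simp

end Pool.Agent.H79.HD
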