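import Pool.Agent.H79.HD.NTW2

/-!
# Task HD-NTW: averages (helper79)
-/

set_option autoImplicit false

namespace Pool.Agent.H79.HD

open Complex MeasureTheory Set Filter Topology
open scoped ComplexConjugate
open Pool.Agent.H477.E (MT bc Nn)
open Pool.Agent.H466.HD

/-- continuous of moderate growth -/
structure Gr {F : Type*} [NormedAddCommGroup F] (f : ℝ → F) : Prop where
  cont : Continuous f
  bd : ∃ B : ℝ, ∀ y, ‖f y‖ ≤ B * Real.exp |y|

/-- continuous and bounded -/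
structure Bc (f : ℝ → ℂ) : Prop where
  cont : Continuous f
  bd : ∃ B : ℝ, ∀ y, ‖f y‖ ≤ B

theorem Bc.gr {f : ℝ → ℂ} (h : Bc f) : Gr f := by
  obtain ⟨B, hB⟩ := h.bd
  refine ⟨h.cont, B, fun y => (hB y).trans ?_⟩
  have hB0 : 0 ≤ B := (norm_nonneg _).trans (hB y)
  exact le_mul_of_one_le_right hB0 (Real.one_le_exp (abs_nonneg _))

theorem Gr.mul {f g : ℝ → ℂ} (hf : Gr f) (hg : Bc g) : Gr fun y => f y * g y := by
  obtain ⟨B, hB⟩ := hf.bd
  obtain ⟨B', hB'⟩ := hg.bd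
  refine ⟨hf.cont.mul hg.cont, B * B', fun y => ?_⟩
  rw [norm_mul]
  have h0 := (norm_nonneg _).trans (hB y)
  calc ‖f y‖ * ‖g y‖ ≤ (B * Real.exp |y|) * B' :=
        mul_le_mul (hB y) (hB' y) (norm_nonneg _) h0
    _ = _ := by ring

theorem Gr.sub {f g : ℝ → ℂ} (hf : Gr f) (hg : Gr g) : Gr fun y => f y - g y := by
  obtain ⟨B, hB⟩ := hf.bd
  obtain ⟨B', hB'⟩ := hg.bd
  refine ⟨hf.cont.sub hg.cont, B + B', fun y => ?_⟩
  refine (norm_sub_le _ _).trans ?_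
  rw [add_mul]
  exact add_le_add (hB y) (hB' y)

theorem Gr.norm {f : ℝ → ℂ} (hf : Gr f) : Gr fun y => ‖f y‖ := by
  obtain ⟨B, hB⟩ := hf.bd
  refine ⟨hf.cont.norm, B, fun y => ?_⟩
  rw [norm_norm]
  exact hB y

theorem Bc.conj {f : ℝ → ℂ} (h : Bc f) : Bc fun y => conj (f y) := by
  obtain ⟨B, hB⟩ := h.bd
  refine ⟨Complex.continuous_conj.comp h.cont, B, fun y => ?_⟩
  rw [RCLike.norm_conj]
  exact hB y

theorem Bc.sq {f : ℝ → ℂ} (h : Bc f) : Gr fun y => ‖f y‖ ^ 2 := by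
  obtain ⟨B, hB⟩ := h.bd
  refine ⟨h.cont.norm.pow 2, B ^ 2, fun y => ?_⟩
  have h1 : ‖f y‖ ^ 2 ≤ B ^ 2 := pow_le_pow_left₀ (norm_nonneg _) (hB y) 2
  rw [Real.norm_eq_abs, abs_of_nonneg (by positivity)]
  exact h1.trans (le_mul_of_one_le_right (sq_nonneg _) (Real.one_le_exp (abs_nonneg _)))

/-- the Gaussian average over the complement of a window -/
noncomputable def Xav (w0 R : ℝ) (f : ℝ → ℝ) (t : ℝ) : ℝ :=
  1 / (w0 * Real.sqrt (2 * Real.pi)) *
    ∫ y in {y : ℝ | R ≤ |y - t|}, f y * Real.exp (-(y - t) ^ 2 / (2 * w0 ^ 2))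

theorem phi_eq (w0 t y : ℝ) : Real.exp (-(y - t) ^ 2 / (2 * w0 ^ 2)) =
    Real.exp (-(1 / (2 * w0 ^ 2) * (y - t) ^ 2)) := by
  congr 1
  ring

theorem real_int {w0 : ℝ} (hw0 : 0 < w0) {f : ℝ → ℝ} (hf : Gr f) (t : ℝ) :
    Integrable fun y : ℝ => f y * Real.exp (-(y - t) ^ 2 / (2 * w0 ^ 2)) := by
  obtain ⟨B, hB⟩ := hf.bd
  have h := int_avg hf.cont hB (a := 1 / (2 * w0 ^ 2)) (by positivity) t
  refine h.congr (Eventually.of_forall fun y => ?_)
  simp only [smul_eq_mul]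
  rw [phi_eq, mul_comm]

theorem cpx_int {w0 : ℝ} (hw0 : 0 < w0) {f : ℝ → ℂ} (hf : Gr f) (t : ℝ) :
    Integrable fun y : ℝ => f y * (Real.exp (-(y - t) ^ 2 / (2 * w0 ^ 2)) : ℂ) := by
  obtain ⟨B, hB⟩ := hf.bd
  have h := int_avg hf.cont hB (a := 1 / (2 * w0 ^ 2)) (by positivity) t
  refine h.congr (Eventually.of_forall fun y => ?_)
  simp only
  rw [phi_eq, Complex.real_smul, mul_comm]

theorem Xav_cont {w0 : ℝ} (hw0 : 0 < w0) (R : ℝ) {f : ℝ → ℝ} (hf : Gr f) :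
    Continuous (Xav w0 R f) := by
  obtain ⟨B, hB⟩ := hf.bd
  have hE : MeasurableSet {v : ℝ | R ≤ |v|} :=
    measurableSet_le measurable_const continuous_abs.measurable
  have h := cont_avg {v : ℝ | R ≤ |v|} hE hf.cont hB (a := 1 / (2 * w0 ^ 2)) (by positivity)
  unfold Xav
  refine continuous_const.mul (h.congr fun t => ?_)
  refine integral_congr_ae (Eventually.of_forall fun y => ?_)
  simp only [smul_eq_mul]
  rw [phi_eq, mul_comm]

theorem Gav_cont {w0 : ℝ} (hw0 : 0 < w0) {f : ℝ → ℂ} (hf : Gr f) : Continuous (Gav w0 f) := by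
  obtain ⟨B, hB⟩ := hf.bd
  have h := cont_avg univ MeasurableSet.univ hf.cont hB (a := 1 / (2 * w0 ^ 2)) (by positivity)
  unfold Gav
  refine continuous_const.mul (h.congr fun t => ?_)
  have h1 : {y : ℝ | y - t ∈ univ} = univ := by
    ext y
    simp
  rw [h1, setIntegral_univ]
  refine integral_congr_ae (Eventually.of_forall fun y => ?_)
  simp only
  rw [phi_eq, Complex.real_smul, mul_comm]

theorem Zav_cont {w0 : ℝ} (hw0 : 0 < w0) (r : ℝ) {f : ℝ → ℝ} (hf : Gr f) :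
    Continuous fun t : ℝ => ∫ y in Icc (t - r) (t + r),
      f y * Real.exp (-(y - t) ^ 2 / (2 * w0 ^ 2)) := by
  obtain ⟨B, hB⟩ := hf.bd
  have h := cont_avg (Icc (-r) r) measurableSet_Icc hf.cont hB
    (a := 1 / (2 * w0 ^ 2)) (by positivity)
  refine h.congr fun t => ?_
  have h1 : {y : ℝ | y - t ∈ Icc (-r) r} = Icc (t - r) (t + r) := by
    ext y
    change (y - t ∈ Icc (-r) r) ↔ _
    rw [mem_Icc, mem_Icc]
    constructor
    · rintro ⟨h1, h2⟩
      constructor <;> linarith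
    · rintro ⟨h1, h2⟩
      constructor <;> linarith
  rw [h1]
  refine integral_congr_ae (Eventually.of_forall fun y => ?_)
  simp only [smul_eq_mul]
  rw [phi_eq, mul_comm]

theorem Xav_nonneg {w0 : ℝ} (hw0 : 0 < w0) (R : ℝ) {f : ℝ → ℝ} (hf : ∀ y, 0 ≤ f y) (t : ℝ) :
    0 ≤ Xav w0 R f t := by
  unfold Xav
  refine mul_nonneg (by positivity) (integral_nonneg fun y => ?_)
  exact mul_nonneg (hf y) (Real.exp_pos _).le

theorem Xav_zero {w0 : ℝ} (f : ℝ → ℝ) (t : ℝ) :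
    Xav w0 0 f t = 1 / (w0 * Real.sqrt (2 * Real.pi)) *
      ∫ y : ℝ, f y * Real.exp (-(y - t) ^ 2 / (2 * w0 ^ 2)) := by
  unfold Xav
  have h1 : {y : ℝ | 0 ≤ |y - t|} = univ := by
    ext y
    simp
  rw [h1, setIntegral_univ]

theorem Gav_le {w0 : ℝ} (hw0 : 0 < w0) (f : ℝ → ℂ) (t : ℝ) :
    ‖Gav w0 f t‖ ≤ Xav w0 0 (fun y => ‖f y‖) t := by
  rw [Xav_zero]
  unfold Gav
  rw [norm_mul, Complex.norm_real, Real.norm_eq_abs, abs_of_pos (by positivity)]
  refine mul_le_mul_of_nonneg_left ?_ (by positivity)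
  refine (norm_integral_le_integral_norm _).trans (le_of_eq ?_)
  refine integral_congr_ae (Eventually.of_forall fun y => ?_)
  simp only
  rw [norm_mul, Complex.norm_real, Real.norm_eq_abs, abs_of_pos (Real.exp_pos _)]

/-- splitting of the average -/
theorem Xav_split {w0 : ℝ} (hw0 : 0 < w0) (R : ℝ) {f : ℝ → ℝ} (hf : Gr f) (h0 : ∀ y, 0 ≤ f y)
    (t : ℝ) : Xav w0 0 f t ≤ Xav w0 R f t + 1 / (w0 * Real.sqrt (2 * Real.pi)) *
      ∫ y in Icc (t - R) (t + R), f y * Real.exp (-(y - t) ^ 2 / (2 * w0 ^ 2)) := by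
  rw [Xav_zero]
  unfold Xav
  rw [← mul_add]
  refine mul_le_mul_of_nonneg_left ?_ (by positivity)
  have hE : MeasurableSet {y : ℝ | R ≤ |y - t|} :=
    measurableSet_le measurable_const (by fun_prop)
  have hi := real_int hw0 hf t
  rw [← integral_add_compl hE hi]
  refine add_le_add le_rfl ?_
  refine setIntegral_mono_set hi.integrableOn ?_ ?_
  · exact Eventually.of_forall fun y => mul_nonneg (h0 y) (Real.exp_pos _).le
  · refine Eventually.of_forall fun y hy => ?_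
    have h1 : ¬ R ≤ |y - t| := hy
    rw [not_le, abs_lt] at h1
    change y ∈ Icc (t - R) (t + R)
    rw [mem_Icc]
    constructor <;> linarith [h1.1, h1.2]

theorem Gav_add {w0 : ℝ} (hw0 : 0 < w0) {f g : ℝ → ℂ} (hf : Gr f) (hg : Gr g) (t : ℝ) :
    Gav w0 (fun y => f y + g y) t = Gav w0 f t + Gav w0 g t := by
  unfold Gav
  rw [← mul_add, ← integral_add (cpx_int hw0 hf t) (cpx_int hw0 hg t)]
  congr 1
  refine integral_congr_ae (Eventually.of_forall fun y => ?_)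
  simp only
  rw [add_mul]

/-- the exceptional set from the Gaussian tails -/
theorem gt_meas {T0 : ℝ}
    (hGT : ∀ (T w0 R : ℝ) (f : ℝ → ℝ), T0 ≤ T → 0 < w0 → w0 ≤ 1 → 0 ≤ R →
      Continuous f → (∀ y, 0 ≤ f y) → (∀ y, f y ≤ T ^ 20 * (1 + |y - T|) ^ 20) →
      ∫ t in (T - T / (8 * Real.log T))..(T + T / (8 * Real.log T)),
        1 / (w0 * Real.sqrt (2 * Real.pi)) *
          ∫ y in {y : ℝ | R ≤ |y - t|}, f y * Real.exp (-(y - t) ^ 2 / (2 * w0 ^ 2)) ≤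
        2 * Real.exp (-(R ^ 2 / (4 * w0 ^ 2))) *
          (∫ y in (T - T / (4 * Real.log T))..(T + T / (4 * Real.log T)), f y) + 1)
    {T w0 R J lam : ℝ} {f : ℝ → ℝ} (hT0 : T0 ≤ T) (hT : 10 ≤ T) (hw0 : 0 < w0) (hw1 : w0 ≤ 1)
    (hR : 0 ≤ R) (hf : Gr f) (h0 : ∀ y, 0 ≤ f y) (hg : ∀ y, f y ≤ T ^ 4 * (1 + |y - T|))
    (hJ : ∫ y in (T - T / (4 * Real.log T))..(T + T / (4 * Real.log T)), f y ≤ J)
    (hlam : 0 < lam) :
    volume {t : ℝ | t ∈ Icc (T - T / (8 * Real.log T)) (T + T / (8 * Real.log T)) ∧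
      lam ≤ Xav w0 R f t} ≤
      ENNReal.ofReal ((2 * Real.exp (-(R ^ 2 / (4 * w0 ^ 2))) * J + 1) / lam) := by
  have hL : 0 < Real.log T := Real.log_pos (by linarith)
  have hle : T - T / (8 * Real.log T) ≤ T + T / (8 * Real.log T) := by
    have : 0 ≤ T / (8 * Real.log T) := by positivity
    linarith
  refine markov hle (Xav_cont hw0 R hf) (Xav_nonneg hw0 R h0) hlam ?_
  have h1 := hGT T w0 R f hT0 hw0 hw1 hR hf.cont h0 (fun y => by
    refine (hg y).trans ?_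
    have h2 : (1 : ℝ) ≤ 1 + |y - T| := by linarith [abs_nonneg (y - T)]
    have h3 : T ^ 4 ≤ T ^ 20 := pow_le_pow_right₀ (by linarith) (by norm_num)
    have h4 : 1 + |y - T| ≤ (1 + |y - T|) ^ 20 := le_self_pow₀ h2 (by norm_num)
    exact mul_le_mul h3 h4 (by linarith) (by positivity))
  refine h1.trans ?_
  have h5 : 0 ≤ 2 * Real.exp (-(R ^ 2 / (4 * w0 ^ 2))) := by positivity
  have := mul_le_mul_of_nonneg_left hJ h5
  linarith

end Pool.Agent.H79.HD
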