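import Pool.Agent.H79.HD.NTW3

/-!
# Task HD-NTW: the main term and the pointwise argument (helper79)
-/

set_option autoImplicit false

namespace Pool.Agent.H79.HD

open Complex MeasureTheory Set Filter Topology
open scoped ComplexConjugate
open Pool.Agent.H477.E (MT bc Nn)
open Pool.Agent.H466.HD

/-- the main term is not small -/
theorem m0_ge {β : ℝ → ℝ} {k : ℝ → ℂ} {C : ℝ} (hb : Bump β k C) {ε c1 U ℓ : ℝ} (hε : 0 < ε)
    (hε' : ε ≤ 1 / 32) (hU : 1 ≤ U)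
    (hPR : ∀ u : ℝ, U ≤ u →
      c1 ≤ ∑ p ∈ (Finset.Icc 1 ⌊Real.exp ((1 + ε) * u)⌋₊).filter
        (fun p : ℕ => p.Prime ∧ u ≤ Real.log p), 1 / (p : ℝ))
    (hℓ : 3 * U ≤ ℓ) : c1 ≤ m0 β ((1 / 2 - 3 * ε / 2) * ℓ) (ε * ℓ / 2) := by
  have hℓ0 : 0 < ℓ := by linarith
  set u : ℝ := (1 / 2 - 7 * ε / 4) * ℓ with hu
  have hεℓ : 0 < ε * ℓ := by positivity
  have hεℓ' : ε * ℓ ≤ 1 / 32 * ℓ := mul_le_mul_of_nonneg_right hε' hℓ0.le
  have hUu : U ≤ u := by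
    rw [hu]
    nlinarith
  refine (hPR u hUu).trans ?_
  unfold m0
  have hkey : ∀ p : ℕ, p ∈ (Finset.Icc 1 ⌊Real.exp ((1 + ε) * u)⌋₊).filter
      (fun p : ℕ => p.Prime ∧ u ≤ Real.log p) →
      p ∈ Pb ((1 / 2 - 3 * ε / 2) * ℓ) (ε * ℓ / 2) ∧
      β ((Real.log p - (1 / 2 - 3 * ε / 2) * ℓ) / (ε * ℓ / 2)) = 1 := by
    intro p hp
    rw [Finset.mem_filter, Finset.mem_Icc] at hp
    obtain ⟨⟨hp1, hp2⟩, hp3, hp4⟩ := hp
    have hp0 : (0 : ℝ) < p := by exact_mod_cast hp1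
    have h1 : (p : ℝ) ≤ Real.exp ((1 + ε) * u) :=
      (Nat.cast_le.2 hp2).trans (Nat.floor_le (Real.exp_pos _).le)
    have h2 : Real.log p ≤ (1 + ε) * u := by
      rw [← Real.log_exp ((1 + ε) * u)]
      exact Real.log_le_log hp0 h1
    have h3 : (1 + ε) * u ≤ (1 / 2 - 5 * ε / 4) * ℓ := by
      rw [hu]
      nlinarith [mul_pos hεℓ hε]
    have h4 : u = (1 / 2 - 3 * ε / 2) * ℓ - (ε * ℓ / 2) / 2 := by rw [hu]; ring
    have h5 : (1 / 2 - 5 * ε / 4) * ℓ = (1 / 2 - 3 * ε / 2) * ℓ + (ε * ℓ / 2) / 2 := by ring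
    constructor
    · unfold Pb
      rw [Finset.mem_filter, Finset.mem_Icc]
      refine ⟨⟨hp1, ?_⟩, hp3, ?_⟩
      · refine hp2.trans (Nat.floor_le_floor (Real.exp_le_exp.2 ?_))
        linarith
      · linarith
    · apply hb.one
      rw [abs_div, abs_of_pos (by positivity : 0 < ε * ℓ / 2), div_le_iff₀ (by positivity), abs_le]
      constructor <;> linarith
  have h6 : ∑ p ∈ (Finset.Icc 1 ⌊Real.exp ((1 + ε) * u)⌋₊).filter
      (fun p : ℕ => p.Prime ∧ u ≤ Real.log p), 1 / (p : ℝ) =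
      ∑ p ∈ (Finset.Icc 1 ⌊Real.exp ((1 + ε) * u)⌋₊).filter
        (fun p : ℕ => p.Prime ∧ u ≤ Real.log p),
        β ((Real.log p - (1 / 2 - 3 * ε / 2) * ℓ) / (ε * ℓ / 2)) ^ 2 / (p : ℝ) := by
    refine Finset.sum_congr rfl fun p hp => ?_
    rw [(hkey p hp).2, one_pow]
  rw [h6]
  refine Finset.sum_le_sum_of_subset_of_nonneg (fun p hp => (hkey p hp).1) fun p _ _ => ?_
  positivity

/-- the pointwise argument -/
theorem pointwise {β : ℝ → ℝ} {k : ℝ → ℂ} {C : ℝ} (hb : Bump β k C)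
    {θ T c w μ w0 R t B Λ1 Λ2 c1 z : ℝ} (hθ : 0 < θ) (hT : 1 < T) (hμ : 0 < μ) (hw : 0 ≤ w)
    (hw0 : 0 < w0) (hG : Gr (DG k c w μ)) (hc1 : 0 < c1) (hm : c1 ≤ m0 β c w)
    (h1 : ‖Gav w0 (Tp θ T β c w) t - (m0 β c w : ℂ)‖ ^ 2 < (c1 / 4) ^ 2)
    (h2 : Xav w0 0 (fun y => ‖(Dn β c w y - DG k c w μ y) * Mt θ T y * Pn β c w y‖) t < c1 / 4)
    (h3 : Xav w0 R (fun y => ‖DG k c w μ y * Mt θ T y * Pn β c w y‖) t < c1 / 8)
    (h4 : Xav w0 0 (fun y => ‖Pn β c w y‖ ^ 2) t < Λ2)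
    (h5 : z ^ 2 * (1 / (w0 * Real.sqrt (2 * Real.pi)) *
      ∫ y in Icc (t - R) (t + R), ‖Mt θ T y‖ ^ 2 * Real.exp (-(y - t) ^ 2 / (2 * w0 ^ 2))) < Λ1)
    (hB : 0 ≤ B)
    (hbad : ∀ y u : ℝ, |y - t| ≤ R → c - w ≤ u → u ≤ c + w → ‖Wg μ u y‖ ≤ B * z)
    (hfin : w / Real.pi * B * ((Λ1 + Λ2) / 2) ≤ c1 / 8) : False := by
  have hD : Bc (Dn β c w) := ⟨Dn_cont β c w, _, Dn_le hb c w⟩
  have hP : Bc (Pn β c w) := ⟨Pn_cont β c w, _, Pn_le hb c w⟩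
  have hM : Bc (Mt θ T) := ⟨Mt_cont θ T, _, Mt_le hθ hT⟩
  set F2 : ℝ → ℂ := fun y => (Dn β c w y - DG k c w μ y) * Mt θ T y * conj (Pn β c w y) with hF2
  set F3 : ℝ → ℂ := fun y => DG k c w μ y * Mt θ T y * conj (Pn β c w y) with hF3
  have gF2 : Gr F2 := ((hD.gr.sub hG).mul hM).mul hP.conj
  have gF3 : Gr F3 := (hG.mul hM).mul hP.conj
  have hTp : Tp θ T β c w = fun y => F2 y + F3 y := by
    funext y
    unfold Tp
    rw [hF2, hF3]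
    ring
  have hadd : Gav w0 (Tp θ T β c w) t = Gav w0 F2 t + Gav w0 F3 t := by
    rw [hTp]
    exact Gav_add hw0 gF2 gF3 t
  have hn2 : (fun y => ‖F2 y‖) =
      fun y => ‖(Dn β c w y - DG k c w μ y) * Mt θ T y * Pn β c w y‖ := by
    funext y
    rw [hF2]
    simp only [norm_mul, RCLike.norm_conj]
  have hn3 : (fun y => ‖F3 y‖) = fun y => ‖DG k c w μ y * Mt θ T y * Pn β c w y‖ := by
    funext y
    rw [hF3]
    simp only [norm_mul, RCLike.norm_conj]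
  have e2 : ‖Gav w0 F2 t‖ < c1 / 4 := by
    refine lt_of_le_of_lt (Gav_le hw0 F2 t) ?_
    rw [hn2]
    exact h2
  -- the near part
  set N : ℝ := 1 / (w0 * Real.sqrt (2 * Real.pi)) with hN
  have hN0 : 0 < N := by positivity
  have e3 : N * ∫ y in Icc (t - R) (t + R), ‖F3 y‖ * Real.exp (-(y - t) ^ 2 / (2 * w0 ^ 2)) ≤
      c1 / 8 := by
    have i1 : IntegrableOn (fun y => ‖Mt θ T y‖ ^ 2 * Real.exp (-(y - t) ^ 2 / (2 * w0 ^ 2)))
        (Icc (t - R) (t + R)) := (real_int hw0 hM.sq t).integrableOn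
    have i2 : Integrable (fun y => ‖Pn β c w y‖ ^ 2 * Real.exp (-(y - t) ^ 2 / (2 * w0 ^ 2))) :=
      real_int hw0 hP.sq t
    have i3 : IntegrableOn (fun y => w / Real.pi * B / 2 *
        (z ^ 2 * (‖Mt θ T y‖ ^ 2 * Real.exp (-(y - t) ^ 2 / (2 * w0 ^ 2))) +
          ‖Pn β c w y‖ ^ 2 * Real.exp (-(y - t) ^ 2 / (2 * w0 ^ 2)))) (Icc (t - R) (t + R)) :=
      ((i1.const_mul _).add i2.integrableOn).const_mul _
    have hle : ∫ y in Icc (t - R) (t + R), ‖F3 y‖ * Real.exp (-(y - t) ^ 2 / (2 * w0 ^ 2)) ≤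
        ∫ y in Icc (t - R) (t + R), w / Real.pi * B / 2 *
          (z ^ 2 * (‖Mt θ T y‖ ^ 2 * Real.exp (-(y - t) ^ 2 / (2 * w0 ^ 2))) +
            ‖Pn β c w y‖ ^ 2 * Real.exp (-(y - t) ^ 2 / (2 * w0 ^ 2))) := by
      refine setIntegral_mono_on (real_int hw0 gF3.norm t).integrableOn i3 measurableSet_Icc ?_
      intro y hy
      rw [mem_Icc] at hy
      have hyt : |y - t| ≤ R := by
        rw [abs_le]
        constructor <;> linarith [hy.1, hy.2]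
      have g1 : ‖DG k c w μ y‖ ≤ w / Real.pi * (B * z) :=
        DG_le hb hμ hw fun u hu1 hu2 => hbad y u hyt hu1 hu2
      have g2 : ‖F3 y‖ = ‖DG k c w μ y‖ * ‖Mt θ T y‖ * ‖Pn β c w y‖ := by
        rw [hF3]
        simp only [norm_mul, RCLike.norm_conj]
      have g3 : ‖F3 y‖ ≤ w / Real.pi * B / 2 * (z ^ 2 * ‖Mt θ T y‖ ^ 2 + ‖Pn β c w y‖ ^ 2) := by
        rw [g2]
        have g4 : 0 ≤ w / Real.pi * B := by positivity
        have g5 : 2 * (z * ‖Mt θ T y‖ * ‖Pn β c w y‖) ≤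
            z ^ 2 * ‖Mt θ T y‖ ^ 2 + ‖Pn β c w y‖ ^ 2 := by
          nlinarith [sq_nonneg (z * ‖Mt θ T y‖ - ‖Pn β c w y‖)]
        calc ‖DG k c w μ y‖ * ‖Mt θ T y‖ * ‖Pn β c w y‖
            ≤ (w / Real.pi * (B * z)) * ‖Mt θ T y‖ * ‖Pn β c w y‖ := by gcongr
          _ = w / Real.pi * B / 2 * (2 * (z * ‖Mt θ T y‖ * ‖Pn β c w y‖)) := by ring
          _ ≤ _ := mul_le_mul_of_nonneg_left g5 (by positivity)
      calc ‖F3 y‖ * Real.exp (-(y - t) ^ 2 / (2 * w0 ^ 2))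
          ≤ (w / Real.pi * B / 2 * (z ^ 2 * ‖Mt θ T y‖ ^ 2 + ‖Pn β c w y‖ ^ 2)) *
            Real.exp (-(y - t) ^ 2 / (2 * w0 ^ 2)) :=
            mul_le_mul_of_nonneg_right g3 (Real.exp_pos _).le
        _ = _ := by ring
    rw [integral_const_mul, integral_add (i1.const_mul _) i2.integrableOn, integral_const_mul] at hle
    have hP2 : N * ∫ y in Icc (t - R) (t + R),
        ‖Pn β c w y‖ ^ 2 * Real.exp (-(y - t) ^ 2 / (2 * w0 ^ 2)) ≤ Λ2 := by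
      rw [Xav_zero] at h4
      refine le_trans (mul_le_mul_of_nonneg_left ?_ hN0.le) h4.le
      refine setIntegral_le_integral i2 (Eventually.of_forall fun y => ?_)
      positivity
    have g6 : 0 ≤ w / Real.pi * B := by positivity
    calc N * ∫ y in Icc (t - R) (t + R), ‖F3 y‖ * Real.exp (-(y - t) ^ 2 / (2 * w0 ^ 2))
        ≤ N * (w / Real.pi * B / 2 *
          ((z ^ 2 * ∫ y in Icc (t - R) (t + R),
            ‖Mt θ T y‖ ^ 2 * Real.exp (-(y - t) ^ 2 / (2 * w0 ^ 2))) +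
          ∫ y in Icc (t - R) (t + R),
            ‖Pn β c w y‖ ^ 2 * Real.exp (-(y - t) ^ 2 / (2 * w0 ^ 2)))) :=
          mul_le_mul_of_nonneg_left hle hN0.le
      _ = w / Real.pi * B / 2 * (z ^ 2 * (N * ∫ y in Icc (t - R) (t + R),
            ‖Mt θ T y‖ ^ 2 * Real.exp (-(y - t) ^ 2 / (2 * w0 ^ 2))) +
          N * ∫ y in Icc (t - R) (t + R),
            ‖Pn β c w y‖ ^ 2 * Real.exp (-(y - t) ^ 2 / (2 * w0 ^ 2))) := by ring
      _ ≤ w / Real.pi * B / 2 * (Λ1 + Λ2) :=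
          mul_le_mul_of_nonneg_left (add_le_add h5.le hP2) (by positivity)
      _ = w / Real.pi * B * ((Λ1 + Λ2) / 2) := by ring
      _ ≤ c1 / 8 := hfin
  have e4 : ‖Gav w0 F3 t‖ < c1 / 4 := by
    have g1 := (Gav_le hw0 F3 t).trans
      (Xav_split hw0 R gF3.norm (fun y => norm_nonneg _) t)
    rw [← hn3] at h3
    have g2 := add_lt_add_of_lt_of_le h3 e3
    refine lt_of_le_of_lt g1 (lt_of_lt_of_le g2 ?_)
    linarith
  have e1 : ‖Gav w0 (Tp θ T β c w) t - (m0 β c w : ℂ)‖ < c1 / 4 :=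
    lt_of_pow_lt_pow_left₀ 2 (by positivity) h1
  have e5 : ‖(m0 β c w : ℂ)‖ = m0 β c w := by
    rw [Complex.norm_real, Real.norm_eq_abs, abs_of_pos (by linarith)]
  have e6 : ‖(m0 β c w : ℂ)‖ ≤ ‖Gav w0 (Tp θ T β c w) t‖ +
      ‖Gav w0 (Tp θ T β c w) t - (m0 β c w : ℂ)‖ := by
    have g1 := norm_sub_le (Gav w0 (Tp θ T β c w) t)
      (Gav w0 (Tp θ T β c w) t - (m0 β c w : ℂ))
    rwa [sub_sub_cancel] at g1
  have e7 : ‖Gav w0 (Tp θ T β c w) t‖ ≤ ‖Gav w0 F2 t‖ + ‖Gav w0 F3 t‖ := by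
    rw [hadd]
    exact norm_add_le _ _
  linarith

end Pool.Agent.H79.HD
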